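import Pool.Agent.H83.FD.TargetsB

/-!
MP_ee74d2_an, Frostman data: module AVX, from sharp boxes to weights.
-/

set_option autoImplicit false

namespace Pool.Agent.H68.FD.AVX

open MeasureTheory Set Pool.Agent.H83.G Pool.Agent.H83.FD
open scoped ENNReal NNReal RealInnerProductSpace

private theorem finrank_Z (m : ℕ) : Module.finrank ℝ (Z m) = m + 2 := by
  unfold Z
  rw [Module.finrank_prod, Module.finrank_prod, Module.finrank_self]
  have : Module.finrank ℝ (E m) = m := finrank_euclideanSpace_fin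
  rw [this]
  omega

private theorem haar_Z (m : ℕ) : (volume : Measure (Z m)).IsAddHaarMeasure := by
  have h1 : (volume : Measure (E m × ℝ)).IsAddHaarMeasure :=
    Measure.prod.instIsAddHaarMeasure (volume : Measure (E m)) (volume : Measure ℝ)
  exact Measure.prod.instIsAddHaarMeasure (volume : Measure ℝ) (volume : Measure (E m × ℝ))

private theorem neg_Z (m : ℕ) : (volume : Measure (Z m)).IsNegInvariant := by
  have := haar_Z m
  have : (volume : Measure (Z m)).Regular := inferInstance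
  infer_instance

private theorem Lo_eq_zero {m : ℕ} {η : E m} {s : ℝ} (hs : 0 < s) {z : Z m} (h : Lo η s z = 0) :
    z = 0 := by
  unfold Lo at h
  have h1 := congrArg Prod.fst h
  have h2 := congrArg (fun u => u.2.1) h
  have h3 := congrArg (fun u => u.2.2) h
  simp only [Prod.fst_zero, Prod.snd_zero] at h1 h2 h3
  have h4 : z.2.2 = 0 := by
    rcases mul_eq_zero.1 h3 with h | h
    · exact absurd h (by positivity)
    · exact h
  rw [h4] at h2 h1
  have h5 : z.2.1 = 0 := by
    rcases smul_eq_zero.1 h2 with h | h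
    · exact absurd h hs.ne'
    · simpa using h
  rw [h5] at h1
  simp only [inner_zero_left, zero_mul, add_zero] at h1
  exact Prod.ext h1 (Prod.ext h5 h4)

/-- `St` as a linear map -/
private noncomputable def Sl (hLOA : T_LOA) {m : ℕ} (η : E m) (s r R : ℝ) : Z m →ₗ[ℝ] Z m where
  toFun := St η s r R
  map_add' x y := by
    unfold St
    rw [((hLOA m).1 η s x y).1]
    refine Prod.ext ?_ ?_
    · simp only [Prod.fst_add, mul_add]
    · simp only [Prod.snd_add, smul_add]
  map_smul' c x := by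
    unfold St
    rw [((hLOA m).2.1 η s c x).1]
    refine Prod.ext ?_ ?_
    · simp only [Prod.smul_fst, smul_eq_mul, RingHom.id_apply]
      ring
    · simp only [Prod.smul_snd, RingHom.id_apply]
      rw [smul_comm]

private theorem Sl_inj (hLOA : T_LOA) {m : ℕ} (η : E m) {s r R : ℝ} (hs : 0 < s) (hr : 0 < r)
    (hR : 0 < R) : Function.Injective (Sl hLOA η s r R) := by
  rw [← LinearMap.ker_eq_bot, LinearMap.ker_eq_bot']
  intro z hz
  refine Lo_eq_zero (η := η) hs ?_
  have h0 : St η s r R z = 0 := hz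
  unfold St at h0
  have h1 := congrArg Prod.fst h0
  have h2 := congrArg Prod.snd h0
  simp only [Prod.fst_zero, Prod.snd_zero] at h1 h2
  refine Prod.ext ?_ ?_
  · rcases mul_eq_zero.1 h1 with h | h
    · exact absurd h (by positivity)
    · exact h
  · rcases smul_eq_zero.1 h2 with h | h
    · exact absurd h (by positivity)
    · exact h

/-- change of variables -/
private theorem cov (hLOA : T_LOA) {m : ℕ} (η : E m) {s r R : ℝ} (hs : 0 < s) (hr : 0 < r)
    (hR : 0 < R) : ∃ J : ℝ≥0∞, J ≠ 0 ∧ J ≠ ⊤ ∧ ∀ F : Z m → ℝ≥0∞, Measurable F →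
      ∫⁻ z, F (St η s r R z) = J * ∫⁻ z, F z := by
  have := haar_Z m
  have hd : LinearMap.det (Sl hLOA η s r R) ≠ 0 := by
    have h1 := LinearEquiv.isUnit_det' (LinearEquiv.ofInjectiveEndo _ (Sl_inj hLOA η hs hr hR))
    exact h1.ne_zero
  refine ⟨ENNReal.ofReal |(LinearMap.det (Sl hLOA η s r R))⁻¹|, ?_, ENNReal.ofReal_ne_top, ?_⟩
  · exact (ENNReal.ofReal_pos.2 (abs_pos.2 (inv_ne_zero hd))).ne'
  · intro F hF
    have h1 := Measure.map_linearMap_addHaar_eq_smul_addHaar (volume : Measure (Z m)) hd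
    have h2 : Measurable (Sl hLOA η s r R) :=
      (LinearMap.continuous_of_finiteDimensional _).measurable
    have h3 : ∫⁻ z, F (Sl hLOA η s r R z) = ∫⁻ z, F z ∂(Measure.map (Sl hLOA η s r R) volume) :=
      (lintegral_map hF h2).symm
    rw [h1, lintegral_smul_measure] at h3
    exact h3

theorem pf_AVX (hLOA : T_LOA) (hWT1 : T_WT1) (hWT2 : T_WT2) : T_AVX := by
  intro m N hN
  have := haar_Z m
  have := neg_Z m
  obtain ⟨C, hC, -⟩ := hWT2 m N hN
  obtain ⟨w1, w2, w3, -⟩ := hWT1 m N
  obtain ⟨b, hb⟩ : ∃ b : ℝ≥0∞, b = volume (Metric.closedBall (0 : Z m) 1) := ⟨_, rfl⟩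
  have hb0 : b ≠ 0 := by
    rw [hb]
    exact (Metric.measure_closedBall_pos volume _ one_pos).ne'
  have hbt : b ≠ ⊤ := by
    rw [hb]
    exact measure_closedBall_lt_top.ne
  refine ⟨2 ^ N * C * b.toNNReal⁻¹, fun F η s r R c x S hF hs hr hR hc hc1 hS => ?_⟩
  obtain ⟨J, hJ0, hJt, hJ⟩ := cov hLOA η hs hr hR
  have hcont : Continuous (St η s r R : Z m → Z m) :=
    LinearMap.continuous_of_finiteDimensional (Sl hLOA η s r R)
  have hsub : ∀ z z' : Z m, St η s r R (z - z') = St η s r R z - St η s r R z' :=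
    fun z z' => (Sl hLOA η s r R).map_sub z z'
  set K : Set (Z m) := {u : Z m | ‖St η s r R u‖ ≤ 1} with hK
  have hKm : MeasurableSet K := (isClosed_le hcont.norm continuous_const).measurableSet
  set I : Z m → ℝ≥0∞ := K.indicator fun _ => (1 : ℝ≥0∞) with hI
  have hIm : Measurable I := measurable_const.indicator hKm
  have hvol : ∫⁻ z : Z m, I z = J * b := by
    have h1 := hJ ((Metric.closedBall (0 : Z m) 1).indicator fun _ => (1 : ℝ≥0∞))
      (measurable_const.indicator Metric.isClosed_closedBall.measurableSet)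
    have h2 : ∀ z : Z m, I z =
        (Metric.closedBall (0 : Z m) 1).indicator (fun _ => (1 : ℝ≥0∞)) (St η s r R z) := by
      intro z
      rw [hI, hK]
      unfold Set.indicator
      simp only [Set.mem_ofPred_eq, mem_closedBall_zero_iff]
    rw [lintegral_congr h2, h1, lintegral_indicator Metric.isClosed_closedBall.measurableSet,
      setLIntegral_const, one_mul, hb]
  have hKV : ∀ z z₁ : Z m, z - z₁ ∈ K → z ∈ VX η s r R z₁ := by
    intro z z₁ hz
    have hz' : ‖St η s r R (z - z₁)‖ ≤ 1 := hz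
    unfold St at hz'
    rw [Prod.norm_def] at hz'
    have h1 := (le_max_left _ _).trans hz'
    have h2 := (le_max_right _ _).trans hz'
    simp only at h1 h2
    constructor
    · rw [Real.norm_eq_abs, abs_mul, abs_of_pos (inv_pos.2 hr), inv_mul_le_iff₀ hr, mul_one] at h1
      exact h1
    · rw [norm_smul, Real.norm_of_nonneg (inv_nonneg.2 (by positivity)),
        inv_mul_le_iff₀ (by positivity), mul_one] at h2
      exact h2
  set g : Z m → ℝ≥0∞ := fun z => ENNReal.ofReal (wt N (c • St η s r R z - x)) with hg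
  have hgm : Measurable g := by
    refine (ENNReal.continuous_ofReal.comp (w2.comp ?_)).measurable
    exact (hcont.const_smul c).sub continuous_const
  -- the double integral
  have hsw : ∫⁻ z₁, ∫⁻ z, g z₁ * (I (z - z₁) * F z) = ∫⁻ z, ∫⁻ z₁, g z₁ * (I (z - z₁) * F z) := by
    refine lintegral_lintegral_swap (Measurable.aemeasurable ?_)
    refine (hgm.comp measurable_fst).mul ((hIm.comp ?_).mul (hF.comp measurable_snd))
    exact measurable_snd.sub measurable_fst
  have hup : ∫⁻ z₁, ∫⁻ z, g z₁ * (I (z - z₁) * F z) ≤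
      S * (J * (C * ENNReal.ofReal ((c⁻¹) ^ (m + 2)))) := by
    have h1 : ∀ z₁, ∫⁻ z, g z₁ * (I (z - z₁) * F z) ≤ S * g z₁ := by
      intro z₁
      have h0 : Measurable fun z => I (z - z₁) * F z := (hIm.comp (measurable_id.sub_const z₁)).mul hF
      rw [lintegral_const_mul _ h0, mul_comm]
      refine mul_le_mul_left ?_ _
      refine le_trans ?_ (hS z₁)
      have hm : MeasurableSet {z : Z m | z - z₁ ∈ K} := by
        exact (isClosed_le (hcont.comp (continuous_id.sub continuous_const)).norm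
          continuous_const).measurableSet
      refine le_trans (le_of_eq ?_) (lintegral_mono_set (μ := volume) (s := {z : Z m | z - z₁ ∈ K})
        (fun z hz => hKV z z₁ hz))
      rw [← lintegral_indicator hm]
      refine lintegral_congr fun z => ?_
      by_cases hz : z - z₁ ∈ K
      · rw [hI, Set.indicator_of_mem hz, one_mul, Set.indicator_of_mem]
        exact hz
      · rw [hI, Set.indicator_of_notMem hz, zero_mul, Set.indicator_of_notMem]
        exact hz
    refine (lintegral_mono h1).trans ?_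
    rw [lintegral_const_mul _ hgm]
    refine mul_le_mul_right ?_ _
    have h2 : ∫⁻ z, g z = J * ∫⁻ z : Z m, ENNReal.ofReal (wt N (c • z - x)) := by
      refine hJ (fun z => ENNReal.ofReal (wt N (c • z - x))) ?_
      refine (ENNReal.continuous_ofReal.comp (w2.comp ?_)).measurable
      exact (continuous_id.const_smul c).sub continuous_const
    rw [h2]
    exact mul_le_mul_right (hC c x hc) _
  have hlow : ∀ z, ENNReal.ofReal ((2 ^ N)⁻¹) * (J * b) * (F z * g z) ≤
      ∫⁻ z₁, g z₁ * (I (z - z₁) * F z) := by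
    intro z
    have h1 : ∀ z₁, ENNReal.ofReal ((2 ^ N)⁻¹) * (F z * g z) * I (z - z₁) ≤
        g z₁ * (I (z - z₁) * F z) := by
      intro z₁
      by_cases hz : z - z₁ ∈ K
      · rw [hI, Set.indicator_of_mem hz, one_mul, mul_one]
        have h2 : wt N (c • St η s r R z - x) * (2 ^ N)⁻¹ ≤ wt N (c • St η s r R z₁ - x) := by
          have h3 : c • St η s r R z₁ - x = (c • St η s r R z - x) +
              (-(c • St η s r R (z - z₁))) := by
            rw [hsub, smul_sub]
            abel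
          rw [h3]
          refine le_trans ?_ (w3 _ _)
          refine mul_le_mul_of_nonneg_left ?_ (w1 _).1.le
          unfold wt
          refine inv_anti₀ (by positivity) (pow_le_pow_left₀ (by positivity) ?_ N)
          rw [norm_neg, norm_smul, Real.norm_of_nonneg hc.le]
          have h4 : ‖St η s r R (z - z₁)‖ ≤ 1 := hz
          have h5 : c * ‖St η s r R (z - z₁)‖ ≤ 1 * 1 :=
            mul_le_mul hc1 h4 (by positivity) zero_le_one
          linarith
        have h6 : g z * ENNReal.ofReal ((2 ^ N)⁻¹) ≤ g z₁ := by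
          simp only [hg]
          rw [← ENNReal.ofReal_mul (w1 _).1.le]
          exact ENNReal.ofReal_le_ofReal h2
        calc ENNReal.ofReal ((2 ^ N)⁻¹) * (F z * g z) = F z * (g z * ENNReal.ofReal ((2 ^ N)⁻¹)) := by
              ring
          _ ≤ F z * g z₁ := mul_le_mul_right h6 _
          _ = g z₁ * F z := mul_comm _ _
      · rw [hI, Set.indicator_of_notMem hz, mul_zero]
        exact bot_le
    refine le_trans (le_of_eq ?_) (lintegral_mono h1)
    have h0 : Measurable fun z₁ => I (z - z₁) := hIm.comp (measurable_const.sub measurable_id)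
    rw [lintegral_const_mul _ h0, lintegral_sub_left_eq_self I z, hvol]
    ring
  have hfin : ENNReal.ofReal ((2 ^ N)⁻¹) * (J * b) * ∫⁻ z, F z * g z ≤
      S * (J * (C * ENNReal.ofReal ((c⁻¹) ^ (m + 2)))) := by
    have h0 : Measurable fun z => F z * g z := hF.mul hgm
    rw [← lintegral_const_mul _ h0]
    exact ((lintegral_mono hlow).trans hsw.ge).trans hup
  -- division
  have h8 : J * (ENNReal.ofReal ((2 ^ N)⁻¹) * b * ∫⁻ z, F z * g z) ≤
      J * (C * ENNReal.ofReal ((c⁻¹) ^ (m + 2)) * S) := by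
    calc J * (ENNReal.ofReal ((2 ^ N)⁻¹) * b * ∫⁻ z, F z * g z) =
        ENNReal.ofReal ((2 ^ N)⁻¹) * (J * b) * ∫⁻ z, F z * g z := by
          ring
      _ ≤ _ := hfin
      _ = J * (C * ENNReal.ofReal ((c⁻¹) ^ (m + 2)) * S) := by
          ring
  rw [ENNReal.mul_le_mul_iff_right hJ0 hJt] at h8
  have h9 : ENNReal.ofReal ((2 ^ N)⁻¹) = ((2 : ℝ≥0∞) ^ N)⁻¹ := by
    rw [ENNReal.ofReal_inv_of_pos (by positivity), ENNReal.ofReal_pow (by norm_num)]
    norm_num
  have h10 : ((2 ^ N * C * b.toNNReal⁻¹ : ℝ≥0) : ℝ≥0∞) = 2 ^ N * C * b⁻¹ := by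
    rw [ENNReal.coe_mul, ENNReal.coe_mul, ENNReal.coe_pow, ENNReal.coe_inv, ENNReal.coe_toNNReal hbt]
    · rfl
    · intro h
      rw [ENNReal.toNNReal_eq_zero_iff] at h
      exact h.elim hb0 hbt
  rw [h10]
  have h11 : ∫⁻ z, F z * g z = 2 ^ N * b⁻¹ * (ENNReal.ofReal ((2 ^ N)⁻¹) * b * ∫⁻ z, F z * g z) := by
    have e1 : (2 : ℝ≥0∞) ^ N * ((2 : ℝ≥0∞) ^ N)⁻¹ = 1 :=
      ENNReal.mul_inv_cancel (pow_ne_zero _ (by norm_num)) (ENNReal.pow_ne_top (by norm_num))
    have e2 : b⁻¹ * b = 1 := ENNReal.inv_mul_cancel hb0 hbt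
    rw [h9]
    calc ∫⁻ z, F z * g z = 1 * 1 * ∫⁻ z, F z * g z := by rw [one_mul, one_mul]
      _ = ((2 : ℝ≥0∞) ^ N * ((2 : ℝ≥0∞) ^ N)⁻¹) * (b⁻¹ * b) * ∫⁻ z, F z * g z := by rw [e1, e2]
      _ = _ := by ring
  change ∫⁻ z, F z * g z ≤ _
  rw [h11]
  calc 2 ^ N * b⁻¹ * (ENNReal.ofReal ((2 ^ N)⁻¹) * b * ∫⁻ z, F z * g z) ≤
      2 ^ N * b⁻¹ * (C * ENNReal.ofReal ((c⁻¹) ^ (m + 2)) * S) := mul_le_mul_right h8 _
    _ = _ := by ring

end Pool.Agent.H68.FD.AVX
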