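import Pool.Agent.H83.FD.TargetsB

/-!
MP_ee74d2_an, Frostman data: module LVX, a box is covered by planks of the same duration.
-/

set_option autoImplicit false

namespace Pool.Agent.H68.FD.LVX

open MeasureTheory Set Pool.Agent.H83.G Pool.Agent.H83.FD
open scoped ENNReal NNReal RealInnerProductSpace

private theorem sum_two : ∃ C0 : ℝ, 0 ≤ C0 ∧ ∀ (x : ℝ) (S : Finset ℤ),
    ∑ j ∈ S, ((1 + |x - j|) ^ 2)⁻¹ ≤ C0 := by
  have h1 : Summable fun i : ℤ => 4 * ((1 + |(i : ℝ)|) ^ 2)⁻¹ := by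
    refine Summable.mul_left 4 ?_
    have h2 := (Real.summable_one_div_int_add_rpow (1 / 2) 2).2 (by norm_num)
    refine Summable.of_nonneg_of_le (fun i => by positivity) (fun i => ?_) h2
    have h3 : 0 < |(i : ℝ) + 1 / 2| := by
      rw [abs_pos]
      intro h
      have h4 : ((2 * i + 1 : ℤ) : ℝ) = 0 := by
        push_cast
        linarith
      have h5 : (2 * i + 1 : ℤ) = 0 := by exact_mod_cast h4
      omega
    rw [one_div, Real.rpow_two]
    refine inv_anti₀ (by positivity) ?_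
    refine pow_le_pow_left₀ h3.le ?_ 2
    have := abs_add_le (i : ℝ) (1 / 2)
    rw [abs_of_pos (by norm_num : (0 : ℝ) < 1 / 2)] at this
    linarith
  refine ⟨∑' i : ℤ, 4 * ((1 + |(i : ℝ)|) ^ 2)⁻¹, tsum_nonneg fun i => by positivity,
    fun x S => ?_⟩
  have h2 : ∀ j ∈ S, ((1 + |x - j|) ^ 2)⁻¹ ≤ 4 * ((1 + |(((j - ⌊x⌋ : ℤ)) : ℝ)|) ^ 2)⁻¹ := by
    intro j _
    have h3 : (1 + |((j - ⌊x⌋ : ℤ) : ℝ)|) ≤ 2 * (1 + |x - j|) := by
      have h4 : |x - ⌊x⌋| ≤ 1 := by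
        rw [abs_of_nonneg (by linarith [Int.floor_le x])]
        linarith [Int.lt_floor_add_one x]
      have h5 : |((j - ⌊x⌋ : ℤ) : ℝ)| ≤ |x - ⌊x⌋| + |x - j| := by
        push_cast
        have h6 : (j : ℝ) - ⌊x⌋ = (x - ⌊x⌋) - (x - j) := by ring
        rw [h6]
        exact abs_sub _ _
      have := abs_nonneg (x - j)
      linarith
    rw [inv_eq_one_div, ← div_eq_mul_inv, div_le_div_iff₀ (by positivity) (by positivity), one_mul]
    calc (1 + |((j - ⌊x⌋ : ℤ) : ℝ)|) ^ 2 ≤ (2 * (1 + |x - j|)) ^ 2 :=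
          pow_le_pow_left₀ (by positivity) h3 2
      _ = 4 * (1 + |x - j|) ^ 2 := by ring
  refine (Finset.sum_le_sum h2).trans ?_
  have h3 : ∑ j ∈ S, 4 * ((1 + |((j - ⌊x⌋ : ℤ) : ℝ)|) ^ 2)⁻¹ =
      ∑ i ∈ S.image (fun j => j - ⌊x⌋), 4 * ((1 + |(i : ℝ)|) ^ 2)⁻¹ := by
    rw [Finset.sum_image]
    intro a _ b _ hab
    simpa using hab
  rw [h3]
  exact h1.sum_le_tsum _ fun i _ => by positivity

private theorem key (N : ℕ) : ∃ C : ℝ, 0 ≤ C ∧ ∀ (q u b : ℝ) (n : ℕ), 1 ≤ q → 0 ≤ b →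
    (n : ℝ) ≤ q + 1 →
    ∑ j ∈ Finset.Icc (-(n : ℤ)) n, ((1 + max |u - j| b) ^ (N + 2))⁻¹ ≤
      C * ((1 + max (q⁻¹ * |u|) b) ^ N)⁻¹ := by
  obtain ⟨C0, hC0, hsum⟩ := sum_two
  refine ⟨C0 * 5 ^ N + 2 ^ (N + 3), by positivity, fun q u b n hq hb hn => ?_⟩
  have hq0 : 0 < q := by linarith
  have hM : 0 < ((1 + max (q⁻¹ * |u|) b) ^ N)⁻¹ := by
    have : 0 ≤ max (q⁻¹ * |u|) b := le_max_of_le_right hb
    positivity
  rcases le_or_gt |u| (4 * q) with h | h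
  · have h1 : ∀ j ∈ Finset.Icc (-(n : ℤ)) n, ((1 + max |u - j| b) ^ (N + 2))⁻¹ ≤
        ((1 + |u - j|) ^ 2)⁻¹ * (5 ^ N * ((1 + max (q⁻¹ * |u|) b) ^ N)⁻¹) := by
      intro j _
      have h2 : (1 + |u - j|) ^ 2 * (1 + b) ^ N ≤ (1 + max |u - j| b) ^ (N + 2) := by
        rw [add_comm N 2, pow_add]
        refine mul_le_mul (pow_le_pow_left₀ (by positivity) ?_ 2)
          (pow_le_pow_left₀ (by positivity) ?_ N) (by positivity) (by positivity)
        · linarith [le_max_left |u - j| b]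
        · linarith [le_max_right |u - j| b]
      have h3 : 1 + max (q⁻¹ * |u|) b ≤ 5 * (1 + b) := by
        have h4 : q⁻¹ * |u| ≤ 4 := by
          rw [inv_mul_le_iff₀ hq0]
          linarith
        have h5 : max (q⁻¹ * |u|) b ≤ 4 + b := max_le (by linarith) (by linarith)
        linarith
      have h4 : ((1 + b) ^ N)⁻¹ ≤ 5 ^ N * ((1 + max (q⁻¹ * |u|) b) ^ N)⁻¹ := by
        have h0 : 0 ≤ max (q⁻¹ * |u|) b := le_max_of_le_right hb
        rw [inv_eq_one_div, ← div_eq_mul_inv, div_le_div_iff₀ (by positivity) (by positivity),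
          one_mul, ← mul_pow]
        exact pow_le_pow_left₀ (by positivity) h3 N
      calc ((1 + max |u - j| b) ^ (N + 2))⁻¹ ≤ ((1 + |u - j|) ^ 2 * (1 + b) ^ N)⁻¹ :=
            inv_anti₀ (by positivity) h2
        _ = ((1 + |u - j|) ^ 2)⁻¹ * ((1 + b) ^ N)⁻¹ := mul_inv _ _
        _ ≤ _ := mul_le_mul_of_nonneg_left h4 (by positivity)
    refine (Finset.sum_le_sum h1).trans ?_
    rw [← Finset.sum_mul]
    calc (∑ j ∈ Finset.Icc (-(n : ℤ)) n, ((1 + |u - j|) ^ 2)⁻¹) *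
          (5 ^ N * ((1 + max (q⁻¹ * |u|) b) ^ N)⁻¹) ≤
          C0 * (5 ^ N * ((1 + max (q⁻¹ * |u|) b) ^ N)⁻¹) :=
          mul_le_mul_of_nonneg_right (hsum u _) (by positivity)
      _ ≤ (C0 * 5 ^ N + 2 ^ (N + 3)) * ((1 + max (q⁻¹ * |u|) b) ^ N)⁻¹ := by
          have : 0 ≤ 2 ^ (N + 3) * ((1 + max (q⁻¹ * |u|) b) ^ N)⁻¹ := by positivity
          linarith
  · have hu : 0 < |u| := by linarith
    obtain ⟨M, hMd⟩ : ∃ M : ℝ, M = 1 + max |u| b := ⟨_, rfl⟩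
    have hM1 : 1 ≤ M := by
      rw [hMd]
      linarith [le_max_right |u| b]
    have h1 : ∀ j ∈ Finset.Icc (-(n : ℤ)) n, ((1 + max |u - j| b) ^ (N + 2))⁻¹ ≤
        2 ^ (N + 2) * (M ^ (N + 2))⁻¹ := by
      intro j hj
      rw [Finset.mem_Icc] at hj
      have h2 : |(j : ℝ)| ≤ n := by
        rw [abs_le]
        constructor
        · exact_mod_cast hj.1
        · exact_mod_cast hj.2
      have h3 : |u| / 2 ≤ |u - j| := by
        have h4 := abs_sub_abs_le_abs_sub u (j : ℝ)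
        linarith
      have h5 : M ≤ 2 * (1 + max |u - j| b) := by
        rw [hMd]
        have h6 : max |u| b ≤ 2 * max |u - j| b := by
          refine max_le ?_ ?_
          · linarith [le_max_left |u - j| b]
          · linarith [le_max_right |u - j| b]
        linarith
      have h0 : 0 ≤ max |u - j| b := le_max_of_le_right hb
      rw [inv_eq_one_div, ← div_eq_mul_inv, div_le_div_iff₀ (by positivity) (by positivity),
        one_mul, ← mul_pow]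
      exact pow_le_pow_left₀ (by positivity) h5 _
    refine (Finset.sum_le_sum h1).trans ?_
    rw [Finset.sum_const, Int.card_Icc, nsmul_eq_mul]
    have h2 : ((((n : ℤ) + 1 - -(n : ℤ)).toNat : ℕ) : ℝ) = 2 * n + 1 := by
      have h3 : ((n : ℤ) + 1 - -(n : ℤ)).toNat = 2 * n + 1 := by omega
      rw [h3]
      push_cast
      ring
    rw [h2]
    have h3 : (2 * (n : ℝ) + 1) ≤ 2 * M := by
      have : |u| ≤ M := by
        rw [hMd]
        linarith [le_max_left |u| b]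
      linarith
    have h4 : (M ^ N)⁻¹ ≤ ((1 + max (q⁻¹ * |u|) b) ^ N)⁻¹ := by
      have h0 : 0 ≤ max (q⁻¹ * |u|) b := le_max_of_le_right hb
      refine inv_anti₀ (by positivity) (pow_le_pow_left₀ (by positivity) ?_ N)
      rw [hMd]
      have h5 : q⁻¹ * |u| ≤ |u| := by
        rw [inv_mul_le_iff₀ hq0]
        nlinarith
      have := max_le_max h5 (le_refl b)
      linarith
    calc (2 * (n : ℝ) + 1) * (2 ^ (N + 2) * (M ^ (N + 2))⁻¹) ≤
          (2 * M) * (2 ^ (N + 2) * (M ^ (N + 2))⁻¹) :=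
          mul_le_mul_of_nonneg_right h3 (by positivity)
      _ = 2 ^ (N + 3) * (M⁻¹ * (M ^ N)⁻¹) := by
          have hM0 : M ≠ 0 := by positivity
          field_simp
          ring
      _ ≤ 2 ^ (N + 3) * (1 * (M ^ N)⁻¹) := by
          gcongr
          exact inv_le_one_of_one_le₀ hM1
      _ ≤ 2 ^ (N + 3) * ((1 + max (q⁻¹ * |u|) b) ^ N)⁻¹ := by
          rw [one_mul]
          exact mul_le_mul_of_nonneg_left h4 (by positivity)
      _ ≤ (C0 * 5 ^ N + 2 ^ (N + 3)) * ((1 + max (q⁻¹ * |u|) b) ^ N)⁻¹ := by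
          have : 0 ≤ C0 * 5 ^ N * ((1 + max (q⁻¹ * |u|) b) ^ N)⁻¹ := by positivity
          linarith

theorem pf_LVX (hLOA : T_LOA) : T_LVX := by
  intro m N
  obtain ⟨C, hC0, hC⟩ := key N
  refine ⟨C.toNNReal, fun η s r R z₀ hs hR hr => ?_⟩
  have hρ : 0 < R * s ^ 2 := by positivity
  obtain ⟨ρ, hρd⟩ : ∃ ρ : ℝ, ρ = R * s ^ 2 := ⟨_, rfl⟩
  rw [← hρd] at hρ hr
  have hr0 : 0 < r := by linarith
  obtain ⟨q, hqd⟩ : ∃ q : ℝ, q = r / ρ := ⟨_, rfl⟩
  have hq : 1 ≤ q := by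
    rw [hqd, le_div_iff₀ hρ, one_mul]
    exact hr
  obtain ⟨n, hn⟩ : ∃ n : ℕ, n = ⌈q⌉₊ := ⟨_, rfl⟩
  have hn1 : (n : ℝ) ≤ q + 1 := by
    rw [hn]
    exact (Nat.ceil_lt_add_one (by linarith)).le
  have hn2 : q ≤ n := by
    rw [hn]
    exact Nat.le_ceil q
  classical
  have hpt : ∀ (z : Z m) (j : ℤ), ρ⁻¹ • Lo η s z - (ρ⁻¹ • Lo η s z₀ + (((j : ℤ) : ℝ), (0 : E m × ℝ))) =
      (ρ⁻¹ * (Lo η s (z - z₀)).1 - j, ρ⁻¹ • (Lo η s (z - z₀)).2) := by
    intro z j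
    rw [((hLOA m).1 η s z z₀).2.1]
    refine Prod.ext ?_ ?_
    · simp only [Prod.fst_sub, Prod.smul_fst, Prod.fst_add, smul_eq_mul]
      ring
    · simp only [Prod.snd_sub, Prod.smul_snd, Prod.snd_add, add_zero, smul_sub]
  rw [← hρd]
  refine ⟨(Finset.Icc (-(n : ℤ)) n).image
    fun j => ρ⁻¹ • Lo η s z₀ + (((j : ℤ) : ℝ), (0 : E m × ℝ)), ?_, ?_⟩
  · intro z hz
    obtain ⟨h1, h2⟩ := hz
    rw [← hρd] at h2
    refine ⟨_, Finset.mem_image_of_mem _ (a := ⌊ρ⁻¹ * (Lo η s (z - z₀)).1⌋) ?_, ?_⟩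
    · have h3 : |ρ⁻¹ * (Lo η s (z - z₀)).1| ≤ q := by
        rw [abs_mul, abs_of_pos (inv_pos.2 hρ), inv_mul_le_iff₀ hρ, hqd]
        rw [mul_div_cancel₀ _ hρ.ne']
        exact h1
      rw [abs_le] at h3
      rw [Finset.mem_Icc]
      constructor
      · rw [Int.le_floor]
        push_cast
        linarith
      · have h4 := Int.floor_le (ρ⁻¹ * (Lo η s (z - z₀)).1)
        have h5 : ((⌊ρ⁻¹ * (Lo η s (z - z₀)).1⌋ : ℤ) : ℝ) ≤ ((n : ℤ) : ℝ) := by
          push_cast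
          linarith
        exact_mod_cast h5
    · rw [hpt, Prod.norm_def]
      refine max_le ?_ ?_
      · simp only
        rw [Real.norm_eq_abs, abs_of_nonneg (by linarith [Int.floor_le (ρ⁻¹ * (Lo η s (z - z₀)).1)])]
        linarith [Int.lt_floor_add_one (ρ⁻¹ * (Lo η s (z - z₀)).1)]
      · simp only
        rw [norm_smul, Real.norm_of_nonneg (inv_nonneg.2 hρ.le), inv_mul_le_iff₀ hρ, mul_one]
        exact h2
  · intro z
    rw [Finset.sum_image]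
    · have h1 := hC q (ρ⁻¹ * (Lo η s (z - z₀)).1) ‖ρ⁻¹ • (Lo η s (z - z₀)).2‖ n hq
        (norm_nonneg _) hn1
      have h2 : ∀ j : ℤ, wt (N + 2) (ρ⁻¹ • Lo η s z - (ρ⁻¹ • Lo η s z₀ + (((j : ℤ) : ℝ),
          (0 : E m × ℝ)))) = ((1 + max |ρ⁻¹ * (Lo η s (z - z₀)).1 - j|
            ‖ρ⁻¹ • (Lo η s (z - z₀)).2‖) ^ (N + 2))⁻¹ := by
        intro j
        rw [hpt]
        unfold wt
        rw [Prod.norm_def, Real.norm_eq_abs]
      have h3 : wt N (St η s r R (z - z₀)) =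
          ((1 + max (q⁻¹ * |ρ⁻¹ * (Lo η s (z - z₀)).1|) ‖ρ⁻¹ • (Lo η s (z - z₀)).2‖) ^ N)⁻¹ := by
        unfold wt St
        rw [Prod.norm_def, Real.norm_eq_abs, ← hρd]
        have h4 : |r⁻¹ * (Lo η s (z - z₀)).1| = q⁻¹ * |ρ⁻¹ * (Lo η s (z - z₀)).1| := by
          rw [abs_mul, abs_mul, abs_of_pos (inv_pos.2 hr0), abs_of_pos (inv_pos.2 hρ), hqd]
          field_simp
        rw [h4]
      rw [← ENNReal.ofReal_sum_of_nonneg]
      · rw [Finset.sum_congr rfl fun j _ => h2 j, h3]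
        refine (ENNReal.ofReal_le_ofReal h1).trans ?_
        rw [ENNReal.ofReal_mul hC0]
        rfl
      · intro j _
        unfold wt
        positivity
    · intro a _ b _ hab
      have h1 := congrArg Prod.fst hab
      simp only [Prod.fst_add, add_right_inj] at h1
      exact_mod_cast h1

end Pool.Agent.H68.FD.LVX
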